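import Pool.Agent.Helper20.ZT.Final
import Pool.Agent.Helper92.ZT.Height

/-!
# Zilber–Pink in `Y(1)ⁿ` for almost all rational translates of every subvariety in general position

Let `Z ⊆ Y(1)ⁿ = ℂⁿ` be any set which is in general position at the cusps for the dimension `d < n`:
no point of its closure in `(ℙ¹)ⁿ` has more than `d` infinite coordinates (`GenPos d Z`).  Then for
`100 %` of the rational vectors `a`, ordered by height, the translate `Z + a` meets no special
subvariety of dimension less than `n - d`, and no subvariety of codimension at most `n - d`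
contained in it has an atypical subvariety.  Every subvariety `V` of dimension `d < n` comes into
this position by a coordinatewise Möbius transformation `z_i ↦ 1 / (z_i - γ_i)`, for all `γ`
outside a proper Zariski closed subset of `ℂⁿ`.

The proof: if a prime `p` divides the denominator of `a` exactly once, then at all places above `p`
at least `n - d` coordinates of a point of `Z + a` are not integral and have the valuation of
`1 / p`, and by the theory of the Tate curve isogenous ones among them satisfy
`j - 744 = ζ (j' - 744)` modulo `p` for a root of unity `ζ`.  Raised to the power `p - 1` this is a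
linear condition on the point of `Z` modulo `p` with coefficients given by Fermat quotients: the
point lies in a random linear space of too small dimension.
-/

open Finset MvPolynomial Pool.Agent.Helper11.ZP Pool.Agent.Helper20.ZT

namespace Pool.Agent.Results.MP_130685_nt.AlmostAllTranslates

/-- The translate `Z + a`. -/
def translate {n : ℕ} (Z : Set (Fin n → ℂ)) (a : Fin n → ℚ) : Set (Fin n → ℂ) :=
  {z | (fun i => z i - (a i : ℂ)) ∈ Z}

open Classical in
/-- The proportion of the rational vectors `a` of height at most `H` such that the translate
`Z + a` has no unlikely intersections in codimension `k`. -/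
noncomputable def proportion {n : ℕ} (k : ℕ) (Z : Set (Fin n → ℂ)) (H : ℕ) : ℝ :=
  (((ratBox n H).filter (fun a => NoUnlikely k (translate Z a))).card : ℝ) / ((ratBox n H).card : ℝ)

/-- the first part -/
theorem first {n d : ℕ} (hd : d < n) (Z : Set (Fin n → ℂ)) (hZ : GenPos d Z) :
    Filter.Tendsto (proportion (n - d) Z) Filter.atTop (nhds 1) := by
  classical
  have h := translates hd Z hZ
  have h2 := to_height (n := n) (by omega) (fun a => NoUnlikely (n - d) (translate Z a)) ?_
  · exact h2
  · have e : ∀ v : ℤ × (Fin n → ℤ), transl Z v.1 v.2 = translate Z (fun i => (v.2 i : ℚ) / (v.1 : ℚ)) := by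
      intro v
      ext z
      have e1 : (fun i => z i - (v.2 i : ℂ) / (v.1 : ℂ)) =
          fun i => z i - (((v.2 i : ℚ) / (v.1 : ℚ) : ℚ) : ℂ) := by
        funext i
        push_cast
        rfl
      change (fun i => z i - (v.2 i : ℂ) / (v.1 : ℂ)) ∈ Z ↔
        (fun i => z i - (((v.2 i : ℚ) / (v.1 : ℚ) : ℚ) : ℂ)) ∈ Z
      rw [e1]
    simp only [e] at h
    exact h

/-- **Zilber–Pink for almost all rational translates** of every set in general position at the
cusps, and of almost all coordinatewise Möbius images of every subvariety. -/
theorem result (n : ℕ) :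
    (∀ d < n, ∀ Z : Set (Fin n → ℂ), GenPos d Z →
      Filter.Tendsto (proportion (n - d) Z) Filter.atTop (nhds 1)) ∧
    (∀ V : Set (Fin n → ℂ), IsSubvariety V → dim V < n →
      ∃ P : MvPolynomial (Fin n) ℂ, P ≠ 0 ∧ ∀ γ : Fin n → ℂ, eval γ P ≠ 0 →
        Filter.Tendsto (proportion (n - dim V) (moeb γ V)) Filter.atTop (nhds 1)) := by
  refine ⟨fun d hd Z hZ => first hd Z hZ, fun V hV hdim => ?_⟩
  obtain ⟨P, hP, h⟩ := genPos_moeb hV
  exact ⟨P, hP, fun γ hγ => first hdim _ (h γ hγ)⟩

end Pool.Agent.Results.MP_130685_nt.AlmostAllTranslates
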