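import Pool.Agent.Helper11.AA.Family
import Pool.Agent.Helper22.AA.CountM
import Pool.Agent.Helper36.AA.MembersU
import Pool.Agent.Helper36.DL.BoxSum
import Pool.Agent.Helper36.DL.Final
import Pool.Agent.Helper36.DL.Trans
import Pool.Agent.Helper69.AA.DensL
import Pool.Agent.Helper36.Y13.Main

/-!
# The Zilber–Pink conjecture for almost all curves in `Y(1)³`

Let `X` be a curve over `ℚ-bar`, and let `D_1, D_2, D_3` be any effective divisors on `X`.  For the triples
`(f_1, f_2, f_3)` of functions `f_i ∈ H⁰(X, 𝒪(D_i))` in a `ℚ`-structure one has: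

**Theorem.** *For every `ε > 0` there is an integer `B` such that for a proportion of at least `1 - ε` of the
rational triples `(f_1, f_2, f_3)`, ordered by height, the curve in `Y(1)³` parametrized by `(f_1, f_2, f_3)`
satisfies the Zilber–Pink conjecture and has at most `B` points on special subvarieties of codimension at
least two.  In particular `100 %` of these curves satisfy the Zilber–Pink conjecture.*

There is no hypothesis on the poles: every curve in `Y(1)³` over `ℚ-bar` on which no coordinate is constant is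
a member of such systems.  Formally the curve is given by its image `V` under finitely many functions
`w_1, …, w_r`, and `f_i = s_i + ∑_{κ (k) = i} s_k w_k`.  For `r = 3` and `κ (k) = k` these are the images of the
curve `V` in `Y(1)³` under the maps `(w_1, w_2, w_3) ↦ (s_1 + s'_1 w_1, s_2 + s'_2 w_2, s_3 + s'_3 w_3)`.
-/

open Filter MvPolynomial Pool.Agent.Helper11.ZP

namespace Pool.Agent.Results.MP_130685_nt.Curves3

variable {n r : ℕ}

/-! ### The hypotheses -/

/-- `V` is given by equations with algebraic coefficients -/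
def OverAlg (V : Set (Fin r → ℂ)) : Prop :=
  ∃ s : Set (MvPolynomial (Fin r) ℂ), (∀ f ∈ s, ∀ m, IsAlgebraic ℚ (f.coeff m)) ∧
    V = {z | ∀ f ∈ s, eval z f = 0}

/-- a curve `V` over `ℚ-bar` on which no function `w_k` is constant, and a partition of these functions
into three blocks -/
structure System (κ : Fin r → Fin 3) (V : Set (Fin r → ℂ)) : Prop where
  subvariety : IsSubvariety V
  curve : dim V = 1
  nonConst : ∀ (k : Fin r) (c : ℂ), ∃ w ∈ V, w k ≠ c
  overAlg : OverAlg V
  blocks : Function.Surjective κ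

/-- the functions `x_i = s_i + ∑_{κ (k) = i} s_k w_k` -/
def lin (κ : Fin r → Fin n) (s : Fin n ⊕ Fin r → ℂ) (w : Fin r → ℂ) (i : Fin n) : ℂ :=
  s (Sum.inl i) + ∑ k with κ k = i, s (Sum.inr k) * w k

/-- the Zariski closure of the image of `V` under these functions -/
def member (κ : Fin r → Fin n) (V : Set (Fin r → ℂ)) (s : Fin n ⊕ Fin r → ℂ) : Set (Fin n → ℂ) :=
  zeroLocus ℂ (vanishingIdeal ℂ {x | ∃ w ∈ V, x = lin κ s w})

open Classical in
/-- the rational vectors of height at most `H`: the vectors `b / q` with integers `1 ≤ q ≤ H`, `|b_i| ≤ H` -/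
noncomputable def box (σ : Type) [Fintype σ] (H : ℕ) : Finset (σ → ℚ) :=
  (Finset.Icc (1 : ℤ) H ×ˢ Fintype.piFinset fun _ : σ => Finset.Icc (-(H : ℤ)) H).image
    fun v i => (v.2 i : ℚ) / (v.1 : ℚ)

/-! ### The conclusions -/

/-- `V` is contained in a special subvariety other than `Y(1)ⁿ` -/
def InProperSpecial (V : Set (Fin n → ℂ)) : Prop := ∃ S : SpecialData n, dim S.carrier < n ∧ V ⊆ S.carrier

/-- `A` is a maximal atypical subvariety of `V` -/
def IsMaxAtypical (V A : Set (Fin n → ℂ)) : Prop :=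
  IsAtypical V A ∧ ∀ B, IsAtypical V B → A ⊆ B → B = A

/-- the Zilber–Pink conjecture for `V`: there are only finitely many maximal atypical subvarieties, and
every atypical subvariety is contained in one of them -/
def ZilberPink (V : Set (Fin n → ℂ)) : Prop :=
  {A | IsMaxAtypical V A}.Finite ∧ ∀ A, IsAtypical V A → ∃ B, IsMaxAtypical V B ∧ A ⊆ B

/-- the points of `V` on the special subvarieties of codimension greater than `dim V` -/
def unlikely (V : Set (Fin n → ℂ)) : Set (Fin n → ℂ) :=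
  {x ∈ V | ∃ S : SpecialData n, dim V + dim S.carrier < n ∧ x ∈ S.carrier}

/-- `V` is a curve, it satisfies the Zilber–Pink conjecture, and it has at most `B` unlikely intersections -/
def Holds (B : ℕ) (V : Set (Fin n → ℂ)) : Prop :=
  IsSubvariety V ∧ dim V = 1 ∧ ZilberPink V ∧ ¬ InProperSpecial V ∧ (unlikely V).Finite ∧ (unlikely V).ncard ≤ B

open Classical in
/-- the proportion of the rational vectors `s` of height at most `H` such that `Holds B (member κ V s)` -/
noncomputable def proportion (κ : Fin r → Fin n) (V : Set (Fin r → ℂ)) (B H : ℕ) : ℝ :=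
  (((box (Fin n ⊕ Fin r) H).filter fun s => Holds B (member κ V fun t => (s t : ℂ))).card : ℝ) /
    ((box (Fin n ⊕ Fin r) H).card : ℝ)

/-! ### The theorem -/

lemma member_eq (κ : Fin r → Fin n) (V : Set (Fin r → ℂ)) (s : Fin n ⊕ Fin r → ℂ) :
    member κ V s = Helper36.DL.member κ V s := by
  have h : {x | ∃ w ∈ V, x = lin κ s w} = Helper36.DL.pImage (Helper36.DL.linPoly κ s) V := by
    ext x
    constructor
    · rintro ⟨w, hw, rfl⟩
      exact ⟨w, hw, (Helper36.AA.eval_linPoly' κ s w).symm⟩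
    · rintro ⟨w, hw, rfl⟩
      exact ⟨w, hw, Helper36.AA.eval_linPoly' κ s w⟩
  rw [member, h]
  rfl

/-- the members are images under polynomials of degree one -/
lemma totalDegree_linPoly (κ : Fin r → Fin n) (s : Fin n ⊕ Fin r → ℂ) (i : Fin n) :
    (Helper36.DL.linPoly κ s i).totalDegree ≤ 1 := by
  rw [Helper36.DL.linPoly]
  refine (totalDegree_add _ _).trans (max_le (by rw [totalDegree_C]; exact zero_le_one) ?_)
  refine (totalDegree_finsetSum _ _).trans (Finset.sup_le fun k _ => ?_)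
  refine (totalDegree_mul _ _).trans ?_
  rw [totalDegree_C, zero_add, totalDegree_X]

/-- a common bound for the number of zeros on the members -/
lemma exists_count {V : Set (Fin r → ℂ)} (hV : IsSubvariety V) (h1 : dim V = 1) (κ : Fin r → Fin n) :
    ∃ c : ℕ, ∀ s : Fin n ⊕ Fin r → ℂ, Helper36.DL.CountC c (Helper36.DL.member κ V s) := by
  obtain ⟨c, hc⟩ := Helper22.AA.count_pClosure hV h1
  refine ⟨c, fun s g hg => ?_⟩
  obtain ⟨h2, h3⟩ := hc n (Helper36.DL.linPoly κ s) (totalDegree_linPoly κ s) g hg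
  exact ⟨h2, h3.trans (Nat.mul_le_mul_left _ (Nat.le_succ _))⟩

/-- the conclusions -/
lemma holds_of {B : ℕ} {C : Set (Fin n → ℂ)} (h : Helper36.AA.Concl B C) : Holds B C := by
  obtain ⟨c1, c2, c3, c4, c5, c6⟩ := h
  have hss : unlikely C ⊆ {x ∈ C | ∃ S : SpecialData n, dim S.carrier + 2 ≤ n ∧ x ∈ S.carrier} := by
    rintro x ⟨hx, S, hS, hxS⟩
    exact ⟨hx, S, by omega, hxS⟩
  refine ⟨c1, c2, ⟨c5, fun A hA => Helper20.ZD.exists_max_curve c1 c2 hA⟩, ?_, c3.subset hss,
    (Set.ncard_le_ncard hss c3).trans c4⟩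
  rintro ⟨S, hS, hVS⟩
  exact c6 S hS hVS

/-- there are rational vectors -/
lemma box_pos (σ : Type) [Fintype σ] {H : ℕ} (hH : 1 ≤ H) : 0 < (box σ H).card := by
  classical
  refine Finset.card_pos.2 ⟨fun _ => 0, ?_⟩
  rw [box, Finset.mem_image]
  refine ⟨((1 : ℤ), fun _ => (0 : ℤ)), ?_, by simp⟩
  rw [Finset.mem_product, Fintype.mem_piFinset]
  have h1 : (1 : ℤ) ≤ (H : ℤ) := by exact_mod_cast hH
  exact ⟨Finset.mem_Icc.2 ⟨le_rfl, h1⟩, fun _ => Finset.mem_Icc.2
    ⟨neg_nonpos.2 (Nat.cast_nonneg H), Nat.cast_nonneg H⟩⟩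

/-- the proportion -/
theorem almost_all {κ : Fin r → Fin 3} {V : Set (Fin r → ℂ)} (h : System κ V) {ε : ℝ} (hε : 0 < ε) :
    ∃ B : ℕ, ∀ᶠ H : ℕ in atTop, 1 - ε ≤ proportion κ V B H := by
  classical
  obtain ⟨c, hc⟩ := exists_count h.subvariety h.curve κ
  obtain ⟨L, p₀, G, hper, hcnt, hG⟩ := Helper36.Y13.main13 h.blocks h.subvariety h.curve h.overAlg h.nonConst hc
  have : Nonempty (Fin 3 ⊕ Fin r) := ⟨Sum.inl 0⟩
  obtain ⟨p₁, hp₁⟩ := Helper69.AA.density_boxS_L (σ := Fin 3 ⊕ Fin r) p₀ L G hper hcnt hε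
  have key : ∀ p : ℕ, ∃ B : ℕ, p.Prime → p₀ ≤ p → ∀ s ∈ G p, ∀ k : ℤ, (p : ℤ) ^ L ∣ k - 1 →
      Holds B (member κ V fun t => ((p : ℂ) * k)⁻¹ * s t) := by
    intro p
    by_cases hp : p.Prime ∧ p₀ ≤ p
    · obtain ⟨B, hB⟩ := hG p hp.1 hp.2
      refine ⟨B, fun _ _ s hs k hk => ?_⟩
      rw [member_eq]
      exact holds_of (hB s hs k hk)
    · exact ⟨0, fun h h' => absurd ⟨h, h'⟩ hp⟩
  choose B hB using key
  refine ⟨(Finset.range (p₁ + 1)).sup B, (hp₁.and (eventually_ge_atTop 1)).mono fun H hH => ?_⟩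
  obtain ⟨hH, hH1⟩ := hH
  have hbox : 0 < ((box (Fin 3 ⊕ Fin r) H).card : ℝ) := Nat.cast_pos.2 (box_pos _ hH1)
  rw [proportion, le_div_iff₀ hbox]
  refine hH.trans (Nat.cast_le.2 (Finset.card_le_card ?_))
  intro s hs
  obtain ⟨h2, p, s', k, hp, hpp, hpp', -, hk, hs₁, hs'⟩ := Finset.mem_filter.1 hs
  have h3 := hB p hp hpp s' hs₁ k hk
  have h4 : (fun t => ((s t : ℚ) : ℂ)) = fun t => ((p : ℂ) * k)⁻¹ * ((s' t : ℤ) : ℂ) := by
    funext t
    rw [hs' t]
    push_cast
    rw [div_eq_inv_mul]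
  refine Finset.mem_filter.2 ⟨h2, ?_⟩
  rw [h4]
  obtain ⟨c1, c2, c3, c4, c5, c6⟩ := h3
  exact ⟨c1, c2, c3, c4, c5, c6.trans (Finset.le_sup (f := B) (Finset.mem_range.2 (Nat.lt_succ_of_le hpp')))⟩

/-- **The Zilber–Pink conjecture for almost all curves in `Y(1)³`**, uniformly -/
theorem result (r : ℕ) (κ : Fin r → Fin 3) (V : Set (Fin r → ℂ)) (h : System κ V) (ε : ℝ) (hε : 0 < ε) :
    ∃ B : ℕ, ∀ᶠ H : ℕ in atTop, 1 - ε ≤ proportion κ V B H :=
  almost_all h hε

end Pool.Agent.Results.MP_130685_nt.Curves3
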