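import Pool.Agent.MX.Main11

/-!
# Zilber–Pink in `Y(1)³` for almost all intersections of a surface of given degree and a surface of
given multidegree

Fix a degree `D` and a multidegree `δ = (δ₁, δ₂, δ₃)`.  For `100 %` of the pairs `(f, g)` of polynomials
in three variables, `f` of total degree at most `D` and `g` of degree at most `δ i` in `T_i`, whose
coefficients are independent rational numbers of height at most `H → ∞`, the curve `f = g = 0` in
`Y(1)³ = ℂ³` meets no special subvariety of dimension less than `2` (no special point and no special
curve) and no subvariety of dimension `≥ 1` contained in it has an atypical subvariety.  Nothing is
assumed about the degrees of the coordinates on the curve: for `δ₁ = δ₂ = δ₃` they are equal.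

The proof uses three primes.  At a prime `p` which divides the denominator of the constant
coefficient of `f` only, some coordinates of each point are not integral, and on a special subvariety
these are exactly the coordinates of the (one) class of isogenous coordinates.  The leading
coefficient of `g` at `p` excludes three such coordinates.  For two of them the third coordinate
is a CM point, and it is congruent to a root of a leading coefficient of `g`, a polynomial in one variable
which we choose split with all roots in residue classes of ordinary curves with a given kind of
Frobenius field (a positive proportion of all polynomials); a second prime `q` with another
Frobenius field gives a contradiction.  Exactly one such coordinate `T_i` is excluded at a third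
prime `l` which divides the denominator of the constant coefficient of `g`, because the coefficient
of `T_i ^ D` in `f` is a unit at `l`.
-/

open Finset Pool.Agent.Helper11.ZP Pool.Agent.Helper20.ZT Pool.Agent.MX

namespace Pool.Agent.Results.MP_130685_nt.MixedIntersections

open Classical in
/-- The proportion of the pairs `(f, g)` with rational coefficients of height at most `H`, `f` of total
degree at most `D` and `g` of degree at most `δ i` in `T_i`, such that the curve `f = g = 0` has
no unlikely intersections in codimension `2`. -/
noncomputable def proportion (D : ℕ) (δ : Fin 3 → ℕ) (H : ℕ) : ℝ :=
  (((qBox (Idx D δ) H).filter fun θ => NoUnlikely 2 (curve θ)).card : ℝ) /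
    ((qBox (Idx D δ) H).card : ℝ)

/-- **Zilber–Pink for almost all intersections** of a surface of given degree and a surface of given
multidegree in `Y(1)³`. -/
theorem result (D : ℕ) (δ : Fin 3 → ℕ) :
    Filter.Tendsto (proportion D δ) Filter.atTop (nhds 1) :=
  Pool.Agent.MX.main D δ

end Pool.Agent.Results.MP_130685_nt.MixedIntersections
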