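import Pool.Agent.II.PosProp11

/-!
# Zilber–Pink in `Y(1)ⁿ` for a positive proportion of all complete intersections

Fix the numbers `n` of variables and `c` of equations and a multidegree `d`, all degrees `≥ 1`.
`result` gives a modulus `M` and an integral system `G` of this multidegree such that for **every**
integral system `F ≡ G mod M` the zero set `Z(F) ⊆ Y(1)ⁿ = ℂⁿ` meets no special subvariety of
dimension less than `c`, and no subvariety of codimension at most `c` contained in `Z(F)` has an
atypical subvariety.  Hence a positive proportion of all integral systems `F` of multidegree `d` with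
coefficients of absolute value at most `H` has this property.

The proof: `M` is a product of different primes `p_s`, one for each way `s` to distribute some of the
coordinates into at most `c - 1` classes of isogenous coordinates, the others being special points.
Modulo `p_s` the polynomial `G_l`, `0 ≤ l < c`, is the sum of the monomials `∏_{i ∈ J} T_i ^ (d l i)`
over all unions `J` of exactly `l` classes.  At a place above `p_s` the coordinates of a class are
integral or not integral simultaneously, and the special coordinates are integral; so a common zero
on the special subvariety has exactly the coordinates in such a union `J` not integral, and the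
monomial of `J` is larger than all other terms of the polynomial number `l`.
-/

open Finset Pool.Agent.Helper11.ZP Pool.Agent.Helper20.ZT

namespace Pool.Agent.Results.MP_130685_nt.PositiveProportion

/-- The systems of `c` polynomials with integral coefficients, the `l`-th polynomial of degree at
most `d l i` in `T_i`; `F l e` is the coefficient of `∏ T_i ^ (e i)` in it. -/
abbrev Sys {n c : ℕ} (d : Fin c → Fin n → ℕ) : Type :=
  (l : Fin c) → ((i : Fin n) → Fin (d l i + 1)) → ℤ

/-- The common zeros in `ℂⁿ` of the polynomials of the system `F`. -/
def zeroSet {n c : ℕ} {d : Fin c → Fin n → ℕ} (F : Sys d) : Set (Fin n → ℂ) :=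
  {x | ∀ l, ∑ e : (i : Fin n) → Fin (d l i + 1), (F l e : ℂ) * ∏ i, x i ^ (e i : ℕ) = 0}

/-- The systems with coefficients of absolute value at most `H`. -/
noncomputable def box {n c : ℕ} (d : Fin c → Fin n → ℕ) (H : ℕ) : Finset (Sys d) :=
  Fintype.piFinset fun _ => Fintype.piFinset fun _ => Icc (-(H : ℤ)) H

open Classical in
/-- The proportion of the systems with coefficients of absolute value at most `H` whose zero sets
have no unlikely intersections in codimension `c`. -/
noncomputable def proportion {n c : ℕ} (d : Fin c → Fin n → ℕ) (H : ℕ) : ℝ :=
  (((box d H).filter (fun F => NoUnlikely c (zeroSet F))).card : ℝ) / ((box d H).card : ℝ)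

/-- **Zilber–Pink for a residue class, hence for a positive proportion, of all complete
intersections** of `c` hypersurfaces in `Y(1)ⁿ` of every multidegree. -/
theorem result {n c : ℕ} (hc : 0 < c) (d : Fin c → Fin n → ℕ) (hd : ∀ l i, 1 ≤ d l i) :
    (∃ M : ℕ, 0 < M ∧ ∃ G : Sys d, ∀ F : Sys d,
      (∀ l e, (M : ℤ) ∣ F l e - G l e) → NoUnlikely c (zeroSet F)) ∧
    ∃ δ : ℝ, 0 < δ ∧ ∀ᶠ H : ℕ in Filter.atTop, δ ≤ proportion d H := by
  refine ⟨?_, Pool.Agent.II.pos_prop hc d hd⟩
  obtain ⟨M, G, hM, h⟩ := Pool.Agent.II.pos_class hc d hd
  exact ⟨M, hM, fun l e => (G l e : ℤ), h⟩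

end Pool.Agent.Results.MP_130685_nt.PositiveProportion
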